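import Pool.Agent.PSS.StmtsS1e
import Pool.Agent.Helper49_PFD.FPF
import Pool.Agent.Helper13_PFD.EQF

/-!
# Squad PSS, row DFM (helper67): from `Df` to `Dm`
-/

open scoped BigOperators

noncomputable section

namespace Pool.Agent.PSS.H67

open Pool.Agent.PSS
open Pool.Agent.PFD.D2 (Cdv FibG)
open Pool.Agent.PFD.D2b (FrR)
open Finset
open Pool.Agent.PSS.Dm (cst smulq)

section coords

variable {F A A' ι : Type} [Field F] [Ring A] [Algebra F A] [Ring A'] [Algebra (PowerSeries F) A']
  [Fintype ι] (e : Module.Basis ι F A) (th : A →+ A')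

/-- the coordinates of a sequence -/
def sr (f : ℕ → A) (i : ι) : PowerSeries F := PowerSeries.mk fun n => e.repr (f n) i

/-- the element of `A'` given by a sequence -/
def thf (f : ℕ → A) : A' := ∑ i, sr e f i • th (e i)

theorem sr_add (f g : ℕ → A) (i : ι) : sr e (f + g) i = sr e f i + sr e g i := by
  ext n
  rw [map_add, sr, sr, sr, PowerSeries.coeff_mk, PowerSeries.coeff_mk, PowerSeries.coeff_mk,
    Pi.add_apply, map_add, Finsupp.add_apply]

theorem sr_smulq (c : PowerSeries F) (f : ℕ → A) (i : ι) :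
    sr e (smulq c f) i = c * sr e f i := by
  ext n
  rw [sr, PowerSeries.coeff_mk, PowerSeries.coeff_mul, smulq, map_sum, Finsupp.finsetSum_apply]
  refine Finset.sum_congr rfl fun p _ => ?_
  rw [map_smul, Finsupp.smul_apply, smul_eq_mul, sr, PowerSeries.coeff_mk]

theorem thf_add (f g : ℕ → A) : thf e th (f + g) = thf e th f + thf e th g := by
  rw [thf, thf, thf, ← Finset.sum_add_distrib]
  refine Finset.sum_congr rfl fun i _ => ?_
  rw [sr_add, add_smul]

theorem thf_smulq (c : PowerSeries F) (f : ℕ → A) :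
    thf e th (smulq c f) = c • thf e th f := by
  rw [thf, thf, Finset.smul_sum]
  refine Finset.sum_congr rfl fun i _ => ?_
  rw [sr_smulq, mul_smul]

theorem smulq_C (r : F) (f : ℕ → A) (n : ℕ) :
    smulq (PowerSeries.C r) f n = r • f n := by
  rw [smulq, Finset.sum_eq_single (0, n)]
  · rw [PowerSeries.coeff_C, if_pos rfl]
  · rintro ⟨a, b⟩ h hne
    rcases a with _ | a
    · rw [Finset.HasAntidiagonal.mem_antidiagonal] at h
      simp only [zero_add] at h
      exact absurd (by rw [h]) hne
    · rw [PowerSeries.coeff_C, if_neg (Nat.succ_ne_zero a), zero_smul]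
  · intro h
    exact absurd (by rw [Finset.HasAntidiagonal.mem_antidiagonal]; simp) h

variable (hs : ∀ (r : F) (a : A), th (r • a) = (PowerSeries.C r : PowerSeries F) • th a)

include hs

theorem th_sum (a : A) :
    ∑ i, (PowerSeries.C (e.repr a i) : PowerSeries F) • th (e i) = th a := by
  conv_rhs => rw [← e.sum_repr a]
  rw [map_sum]
  refine Finset.sum_congr rfl fun i _ => ?_
  rw [hs]

theorem thf_cst (a : A) : thf e th (cst a) = th a := by
  rw [← th_sum e th hs a, thf]
  refine Finset.sum_congr rfl fun i _ => ?_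
  congr 1
  ext n
  rw [sr, PowerSeries.coeff_mk, PowerSeries.coeff_C, cst]
  split_ifs with h
  · rfl
  · rw [map_zero, Finsupp.zero_apply]

omit hs in
/-- reduction of an element given by a sequence -/
theorem q_thf (q : A' →+* A)
    (hq : ∀ r : PowerSeries F, q (algebraMap (PowerSeries F) A' r) =
      algebraMap F A (PowerSeries.constantCoeff r))
    (hqt : ∀ a, q (th a) = a) (f : ℕ → A) : q (thf e th f) = f 0 := by
  rw [thf, map_sum]
  conv_rhs => rw [← e.sum_repr (f 0)]
  refine Finset.sum_congr rfl fun i _ => ?_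
  rw [Algebra.smul_def, map_mul, hq, hqt, ← Algebra.smul_def]
  rw [← PowerSeries.coeff_zero_eq_constantCoeff_apply, sr, PowerSeries.coeff_mk]

end coords

/-! ## Bijectivity -/

section bij

variable {F A A' ι : Type} [Field F] [Ring A] [Algebra F A] [Ring A'] [Algebra (PowerSeries F) A']
  [Fintype ι] (e : Module.Basis ι F A) (th : A →+ A')

/-- injectivity -/
theorem thf_zero (q : A' →+* A)
    (hq : ∀ r : PowerSeries F, q (algebraMap (PowerSeries F) A' r) =
      algebraMap F A (PowerSeries.constantCoeff r))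
    (hqt : ∀ a, q (th a) = a)
    (hreg : ∀ x : A', (PowerSeries.X : PowerSeries F) • x = 0 → x = 0) (n : ℕ) :
    ∀ f : ℕ → A, thf e th f = 0 → f n = 0 := by
  induction n with
  | zero =>
    intro f hf
    rw [← q_thf e th q hq hqt f, hf, map_zero]
  | succ n ih =>
    intro f hf
    have h0 : f 0 = 0 := by
      rw [← q_thf e th q hq hqt f, hf, map_zero]
    have h1 : f = smulq (PowerSeries.X : PowerSeries F) (fun m => f (m + 1)) := by
      funext m
      rw [smulq]
      rcases m with _ | m
      · rw [Finset.Nat.antidiagonal_zero, Finset.sum_singleton, PowerSeries.coeff_zero_X,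
          zero_smul, h0]
      · rw [Finset.sum_eq_single (1, m)]
        · rw [PowerSeries.coeff_one_X, one_smul]
        · rintro ⟨a, b⟩ h hne
          rw [PowerSeries.coeff_X]
          split_ifs with ha
          · rw [Finset.HasAntidiagonal.mem_antidiagonal] at h
            simp only at h ha
            exact absurd (by rw [ha, show b = m by omega]) hne
          · exact zero_smul _ _
        · intro h
          exact absurd (by rw [Finset.HasAntidiagonal.mem_antidiagonal]; simp only; omega) h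
    rw [h1, thf_smulq] at hf
    exact ih _ (hreg _ hf)

/-- surjectivity -/
theorem thf_surj [Module.Finite (PowerSeries F) A'] (q : A' →+* A)
    (hs : ∀ (r : F) (a : A), th (r • a) = (PowerSeries.C r : PowerSeries F) • th a)
    (hqt : ∀ a, q (th a) = a)
    (hker : ∀ x, q x = 0 → ∃ y, x = (PowerSeries.X : PowerSeries F) • y) :
    Function.Surjective (thf e th) := by
  set N : Submodule (PowerSeries F) A' := Submodule.span (PowerSeries F) (Set.range fun i => th (e i))
    with hN
  have h1 : ∀ x : A', ∃ y ∈ N, ∃ z, x = y + (PowerSeries.X : PowerSeries F) • z := by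
    intro x
    obtain ⟨z, hz⟩ := hker (x - th (q x)) (by rw [map_sub, hqt, sub_self])
    refine ⟨th (q x), ?_, z, ?_⟩
    · rw [← th_sum e th hs (q x)]
      exact Submodule.sum_mem _ fun i _ => N.smul_mem _ (Submodule.subset_span ⟨i, rfl⟩)
    · rw [← hz]
      abel
  have h2 : (⊤ : Submodule (PowerSeries F) A') ≤ N := by
    refine Submodule.le_of_le_smul_of_le_jacobson_bot (I := Ideal.span {(PowerSeries.X : PowerSeries F)})
      Module.Finite.fg_top ?_ ?_
    · rw [Ideal.span_le, Set.singleton_subset_iff, SetLike.mem_coe, Ideal.mem_jacobson_bot]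
      intro y
      rw [PowerSeries.isUnit_iff_constantCoeff]
      simp
    · intro x _
      obtain ⟨y, hy, z, hz⟩ := h1 x
      rw [hz]
      refine Submodule.add_mem_sup hy ?_
      exact Submodule.smul_mem_smul (Ideal.mem_span_singleton_self _) trivial
  intro x
  have h3 : x ∈ N := h2 trivial
  rw [hN, Submodule.mem_span_range_iff_exists_fun] at h3
  obtain ⟨s, hs'⟩ := h3
  refine ⟨fun n => ∑ i, PowerSeries.coeff n (s i) • e i, ?_⟩
  rw [← hs', thf]
  refine Finset.sum_congr rfl fun i _ => ?_
  congr 1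
  ext n
  rw [sr, PowerSeries.coeff_mk, e.repr_sum_self]

end bij

/-! ## The inverse -/

section inv

variable {F A A' ι : Type} [Field F] [Ring A] [Algebra F A] [Ring A'] [Algebra (PowerSeries F) A']
  [Fintype ι] (e : Module.Basis ι F A) (th : A →+ A') (hb : Function.Bijective (thf e th))

/-- the sequence of an element -/
def phi (hb : Function.Bijective (thf e th)) : A' → ℕ → A := (Equiv.ofBijective _ hb).symm

theorem thf_phi (x : A') : thf e th (phi e th hb x) = x :=
  (Equiv.ofBijective _ hb).apply_symm_apply x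

theorem phi_thf (f : ℕ → A) : phi e th hb (thf e th f) = f :=
  (Equiv.ofBijective _ hb).symm_apply_apply f

theorem phi_add (x y : A') : phi e th hb (x + y) = phi e th hb x + phi e th hb y := by
  apply hb.1
  rw [thf_phi, thf_add, thf_phi, thf_phi]

theorem phi_smul (c : PowerSeries F) (x : A') :
    phi e th hb (c • x) = smulq c (phi e th hb x) := by
  apply hb.1
  rw [thf_phi, thf_smulq, thf_phi]

theorem phi_zero : phi e th hb 0 = 0 := by
  have h := phi_add e th hb 0 0
  rw [add_zero] at h
  exact (left_eq_add.mp h)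

/-- `phi` as an additive map -/
def phiA (hb : Function.Bijective (thf e th)) (n : ℕ) : A' →+ A where
  toFun x := phi e th hb x n
  map_zero' := by rw [phi_zero]; rfl
  map_add' x y := by rw [phi_add]; rfl

theorem phiA_apply (n : ℕ) (x : A') : phiA e th hb n x = phi e th hb x n := rfl

theorem phiA_smul (n : ℕ) (c : PowerSeries F) (x : A') :
    phiA e th hb n (c • x) = ∑ p ∈ antidiagonal n, PowerSeries.coeff p.1 c • phiA e th hb p.2 x := by
  rw [phiA_apply, phi_smul]
  rfl

theorem phiA_C (n : ℕ) (r : F) (x : A') :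
    phiA e th hb n ((PowerSeries.C r : PowerSeries F) • x) = r • phiA e th hb n x := by
  rw [phiA_apply, phi_smul, smulq_C]
  rfl

variable (hs : ∀ (r : F) (a : A), th (r • a) = (PowerSeries.C r : PowerSeries F) • th a)

include hs

theorem phiA_th (n : ℕ) (a : A) : phiA e th hb n (th a) = cst a n := by
  rw [phiA_apply, ← thf_cst e th hs a, phi_thf]

/-- the main formula -/
theorem phiA_lin (L : A' →ₗ[PowerSeries F] A') (x : A') (n : ℕ) :
    phiA e th hb n (L x) =
      ∑ p ∈ antidiagonal n, phiA e th hb p.2 (L (th (phiA e th hb p.1 x))) := by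
  have h1 : L x = ∑ i, sr e (phi e th hb x) i • L (th (e i)) := by
    conv_lhs => rw [← thf_phi e th hb x, thf, map_sum]
    refine Finset.sum_congr rfl fun i _ => ?_
    rw [map_smul]
  have h2 : ∀ a : A, L (th a) = ∑ i, (PowerSeries.C (e.repr a i) : PowerSeries F) • L (th (e i)) := by
    intro a
    rw [← th_sum e th hs a, map_sum]
    refine Finset.sum_congr rfl fun i _ => ?_
    rw [map_smul]
  rw [h1, map_sum]
  simp_rw [phiA_smul]
  rw [Finset.sum_comm]
  refine Finset.sum_congr rfl fun p _ => ?_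
  rw [h2, map_sum]
  refine Finset.sum_congr rfl fun i _ => ?_
  rw [phiA_C, sr, PowerSeries.coeff_mk]
  rfl

/-- right multiplication -/
theorem phiA_mul_right (x y : A') (n : ℕ) :
    phiA e th hb n (x * y) =
      ∑ p ∈ antidiagonal n, phiA e th hb p.2 (th (phiA e th hb p.1 x) * y) :=
  phiA_lin e th hb hs (LinearMap.mulRight (PowerSeries F) y) x n

/-- left multiplication -/
theorem phiA_mul_left (x y : A') (n : ℕ) :
    phiA e th hb n (x * y) =
      ∑ p ∈ antidiagonal n, phiA e th hb p.2 (x * th (phiA e th hb p.1 y)) :=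
  phiA_lin e th hb hs (LinearMap.mulLeft (PowerSeries F) x) y n

/-- equivariance -/
theorem phiA_eqv_left (g : A) (g' : A') (hg : ∀ a, th (g * a) = g' * th a) (x : A') (n : ℕ) :
    phiA e th hb n (g' * x) = g * phiA e th hb n x := by
  rw [phiA_mul_left e th hb hs]
  simp_rw [← hg, phiA_th e th hb hs]
  rw [Finset.sum_eq_single (n, 0)]
  · rw [cst, if_pos rfl]
  · rintro ⟨a, b⟩ h hne
    rw [cst]
    split_ifs with hb'
    · rw [Finset.HasAntidiagonal.mem_antidiagonal] at h
      simp only at h hb'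
      exact absurd (by rw [hb', show a = n by omega]) hne
    · rfl
  · intro h
    exact absurd (by rw [Finset.HasAntidiagonal.mem_antidiagonal]; simp) h

theorem phiA_eqv_right (g : A) (g' : A') (hg : ∀ a, th (a * g) = th a * g') (x : A') (n : ℕ) :
    phiA e th hb n (x * g') = phiA e th hb n x * g := by
  rw [phiA_mul_right e th hb hs]
  simp_rw [← hg, phiA_th e th hb hs]
  rw [Finset.sum_eq_single (n, 0)]
  · rw [cst, if_pos rfl]
  · rintro ⟨a, b⟩ h hne
    rw [cst]
    split_ifs with hb'
    · rw [Finset.HasAntidiagonal.mem_antidiagonal] at h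
      simp only at h hb'
      exact absurd (by rw [hb', show a = n by omega]) hne
    · rfl
  · intro h
    exact absurd (by rw [Finset.HasAntidiagonal.mem_antidiagonal]; simp) h

end inv

/-! ## The deformation -/

section dm

variable {F A A' W ι : Type} [Field F] [Ring A] [Algebra F A] [Ring A']
  [Algebra (PowerSeries F) A'] [Group W] [Fintype ι] (e : Module.Basis ι F A) (th : A →+ A')
  (hb : Function.Bijective (thf e th))
  (hs : ∀ (r : F) (a : A), th (r • a) = (PowerSeries.C r : PowerSeries F) • th a)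

/-- the components of the multiplication -/
def mm (n : ℕ) : A →ₗ[F] A →ₗ[F] A :=
  LinearMap.mk₂ F (fun a a' => phiA e th hb n (th a * th a'))
    (fun a b c => by rw [map_add, add_mul, map_add])
    (fun r a b => by rw [hs, smul_mul_assoc, phiA_C])
    (fun a b c => by rw [map_add, mul_add, map_add])
    (fun r a b => by rw [hs, mul_smul_comm, phiA_C])

theorem mm_apply (n : ℕ) (a a' : A) : mm e th hb hs n a a' = phiA e th hb n (th a * th a') := rfl

/-- the deformation -/
def dd (om : W →* A) (om' : W →* A') (q : A' →+* A)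
    (hq : ∀ r : PowerSeries F, q (algebraMap (PowerSeries F) A' r) =
      algebraMap F A (PowerSeries.constantCoeff r))
    (hqt : ∀ a, q (th a) = a) (h1 : th 1 = 1)
    (hl : ∀ w a, th (om w * a) = om' w * th a) (hr : ∀ w a, th (a * om w) = th a * om' w) :
    Dm F om where
  m := mm e th hb hs
  m0 x y := by
    rw [mm_apply, phiA_apply, ← q_thf e th q hq hqt (phi e th hb (th x * th y)), thf_phi, map_mul, hqt, hqt]
  ass n x y z := by
    simp_rw [mm_apply]
    have ha := phiA_mul_right e th hb hs (th x * th y) (th z) n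
    have hb' := phiA_mul_left e th hb hs (th x) (th y * th z) n
    rw [mul_assoc, hb'] at ha
    rw [← Finset.Nat.sum_antidiagonal_swap (f := fun p : ℕ × ℕ =>
      phiA e th hb p.1 (th (phiA e th hb p.2 (th x * th y)) * th z)),
      ← Finset.Nat.sum_antidiagonal_swap (f := fun p : ℕ × ℕ =>
      phiA e th hb p.1 (th x * th (phiA e th hb p.2 (th y * th z))))]
    exact ha.symm
  wl n w x y := by
    rw [mm_apply, mm_apply, hl, mul_assoc, phiA_eqv_left e th hb hs (om w) (om' w) (hl w)]
  wm n w x y := by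
    rw [mm_apply, mm_apply, hl, hr, mul_assoc]
  wr n w x y := by
    rw [mm_apply, mm_apply, hr, ← mul_assoc, phiA_eqv_right e th hb hs (om w) (om' w) (hr w)]
  n1 n x := by
    rw [mm_apply, h1, one_mul, phiA_th e th hb hs, cst, if_neg (Nat.succ_ne_zero n)]
  n2 n x := by
    rw [mm_apply, h1, mul_one, phiA_th e th hb hs, cst, if_neg (Nat.succ_ne_zero n)]

theorem dd_mul (om : W →* A) (om' : W →* A') (q : A' →+* A)
    (hq : ∀ r : PowerSeries F, q (algebraMap (PowerSeries F) A' r) =
      algebraMap F A (PowerSeries.constantCoeff r))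
    (hqt : ∀ a, q (th a) = a) (h1 : th 1 = 1)
    (hl : ∀ w a, th (om w * a) = om' w * th a) (hr : ∀ w a, th (a * om w) = th a * om' w)
    (f g : ℕ → A) :
    thf e th ((dd e th hb hs om om' q hq hqt h1 hl hr).mul f g) = thf e th f * thf e th g := by
  rw [← thf_phi e th hb (thf e th f * thf e th g)]
  congr 1
  funext n
  rw [← phiA_apply, phiA_mul_right e th hb hs]
  have h2 : ∀ p : ℕ × ℕ, phiA e th hb p.2 (th (phiA e th hb p.1 (thf e th f)) * thf e th g) =
      ∑ r ∈ antidiagonal p.2, mm e th hb hs r.2 (f p.1) (g r.1) := by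
    intro p
    rw [phiA_mul_left e th hb hs]
    refine Finset.sum_congr rfl fun r _ => ?_
    rw [mm_apply, phiA_apply e th hb p.1, phiA_apply e th hb r.1, phi_thf, phi_thf]
  simp_rw [h2]
  show ∑ p ∈ antidiagonal n, ∑ q ∈ antidiagonal p.2, mm e th hb hs p.1 (f q.1) (g q.2) = _
  have e1 : ∀ S : ℕ → ℕ → ℕ → A, ∑ p ∈ antidiagonal n, ∑ q ∈ antidiagonal p.2,
      S p.1 q.1 q.2 = ∑ x ∈ (antidiagonal n).sigma (fun p => antidiagonal p.2),
        S x.1.1 x.2.1 x.2.2 := by
    intro S
    rw [Finset.sum_sigma]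
  rw [e1 (fun a b c => mm e th hb hs a (f b) (g c)),
    e1 (fun a b c => mm e th hb hs c (f a) (g b))]
  refine Finset.sum_nbij'
    (i := fun x => ⟨(x.2.1, x.2.2 + x.1.1), (x.2.2, x.1.1)⟩)
    (j := fun x => ⟨(x.2.2, x.1.1 + x.2.1), (x.1.1, x.2.1)⟩) ?_ ?_ ?_ ?_ ?_
  · rintro ⟨⟨a, b⟩, ⟨c, d⟩⟩ h
    simp only [mem_sigma, Finset.HasAntidiagonal.mem_antidiagonal] at h ⊢
    refine ⟨?_, trivial⟩
    omega
  · rintro ⟨⟨a, b⟩, ⟨c, d⟩⟩ h
    simp only [mem_sigma, Finset.HasAntidiagonal.mem_antidiagonal] at h ⊢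
    refine ⟨?_, trivial⟩
    omega
  · rintro ⟨⟨a, b⟩, ⟨c, d⟩⟩ h
    simp only [mem_sigma, Finset.HasAntidiagonal.mem_antidiagonal] at h
    obtain ⟨h1, h2⟩ := h
    subst h2
    rfl
  · rintro ⟨⟨a, b⟩, ⟨c, d⟩⟩ h
    simp only [mem_sigma, Finset.HasAntidiagonal.mem_antidiagonal] at h
    obtain ⟨h1, h2⟩ := h
    subst h2
    rfl
  · rintro ⟨⟨a, b⟩, ⟨c, d⟩⟩ h
    rfl

/-- the isomorphism -/
def ee (om : W →* A) (om' : W →* A') (q : A' →+* A)
    (hq : ∀ r : PowerSeries F, q (algebraMap (PowerSeries F) A' r) =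
      algebraMap F A (PowerSeries.constantCoeff r))
    (hqt : ∀ a, q (th a) = a) (h1 : th 1 = 1)
    (hl : ∀ w a, th (om w * a) = om' w * th a) (hr : ∀ w a, th (a * om w) = th a * om' w) :
    (dd e th hb hs om om' q hq hqt h1 hl hr).R ≃ₐ[PowerSeries F] A' where
  toFun x := thf e th ((dd e th hb hs om om' q hq hqt h1 hl hr).sq x)
  invFun y := (dd e th hb hs om om' q hq hqt h1 hl hr).of (phi e th hb y)
  left_inv x := by
    show (dd e th hb hs om om' q hq hqt h1 hl hr).of (phi e th hb (thf e th _)) = x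
    rw [phi_thf, Dm.of_sq]
  right_inv y := by
    show thf e th (((dd e th hb hs om om' q hq hqt h1 hl hr)).sq
      ((dd e th hb hs om om' q hq hqt h1 hl hr).of (phi e th hb y))) = y
    rw [Dm.sq_of, thf_phi]
  map_mul' x y := by
    rw [← dd_mul e th hb hs om om' q hq hqt h1 hl hr]
    congr 1
    conv_lhs => rw [← Dm.of_sq _ x, ← Dm.of_sq _ y, ← Dm.of_mul, Dm.sq_of]
  map_add' x y := by
    rw [← thf_add]
    congr 1
    conv_lhs => rw [← Dm.of_sq _ x, ← Dm.of_sq _ y, ← Dm.of_add, Dm.sq_of]
  commutes' r := by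
    show thf e th ((dd e th hb hs om om' q hq hqt h1 hl hr).sq (algebraMap (PowerSeries F) _ r)) = _
    rw [Algebra.algebraMap_eq_smul_one, ← Dm.of_one, ← Dm.of_smul, Dm.sq_of, thf_smulq,
      thf_cst e th hs, h1, Algebra.algebraMap_eq_smul_one]

end dm

/-- the section: equivariant lifts of the frame, normalised -/
theorem sect (hUnj : UnjStmt) {F W A A' Ω : Type} [Field F] [CommGroup W] [Ring A] [Algebra F A]
    [Ring A'] [Algebra (PowerSeries F) A'] [Module.Finite (PowerSeries F) A']
    [Fintype Ω] [MulAction (W × W) Ω] (om : W →* A)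
    (om' : W →* A') (b : Ω → A) (c : Ω → (A →ₗ[F] F)) (hfr : FrR (bw F om) b c)
    (df : Df (PowerSeries.X : PowerSeries F) PowerSeries.constantCoeff om om') :
    ∃ th : A →+ A', (∀ (r : F) (a : A), th (r • a) = (PowerSeries.C r : PowerSeries F) • th a) ∧
      (∀ a, df.q (th a) = a) ∧ th 1 = 1 ∧ (∀ w a, th (om w * a) = om' w * th a) ∧
      ∀ w a, th (a * om w) = th a * om' w := by
  obtain ⟨Ω', _, _, b', c', hfr'⟩ := df.per
  have hF := Pool.Agent.PFD.D2b.H49.fpf (PowerSeries F) (W × W) A' Ω' (bw (PowerSeries F) om') b' c'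
    PowerSeries.X hfr'
  have hX : ∀ x : A', df.q ((PowerSeries.X : PowerSeries F) • x) = 0 := by
    intro x
    rw [Algebra.smul_def, map_mul, df.sc, PowerSeries.constantCoeff_X, map_zero, zero_mul]
  choose m hm using fun ω => df.surj (b ω)
  have hb1 : ∀ g ω, ∃ x, m (g • ω) - bw (PowerSeries F) om' g (m ω) =
      (PowerSeries.X : PowerSeries F) • x := by
    intro g ω
    refine df.ker _ ?_
    rw [map_sub, hm, hfr.1 g ω]
    show om g.1 * (b ω * om g.2⁻¹) - df.q (om' g.1 * (m ω * om' g.2⁻¹)) = 0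
    rw [map_mul, map_mul, df.qw, df.qw, hm, sub_self]
  obtain ⟨h, hh1, hh2⟩ := Pool.Agent.PFD.D2b.H13.eqf (PowerSeries F) (W × W) A' Ω
    (bw (PowerSeries F) om') PowerSeries.X hF m hb1
  have hqh : ∀ ω, df.q (h ω) = b ω := by
    intro ω
    obtain ⟨x, hx⟩ := hh2 ω
    have h1 := congrArg df.q hx
    rw [hX, map_sub, hm, sub_eq_zero] at h1
    exact h1
  -- the unnormalised section
  let t1 : A →+ A' :=
    { toFun := fun a => ∑ ω, (PowerSeries.C (c ω a) : PowerSeries F) • h ω
      map_zero' := by simp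
      map_add' := fun x y => by
        rw [← Finset.sum_add_distrib]
        refine Finset.sum_congr rfl fun ω _ => ?_
        rw [map_add, map_add, add_smul] }
  have t1d : ∀ a, t1 a = ∑ ω, (PowerSeries.C (c ω a) : PowerSeries F) • h ω := fun a => rfl
  have t1s : ∀ (r : F) a, t1 (r • a) = (PowerSeries.C r : PowerSeries F) • t1 a := by
    intro r a
    rw [t1d, t1d, Finset.smul_sum]
    refine Finset.sum_congr rfl fun ω _ => ?_
    rw [map_smul, smul_eq_mul, map_mul, mul_smul]
  have t1q : ∀ a, df.q (t1 a) = a := by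
    intro a
    rw [t1d, map_sum]
    conv_rhs => rw [← hfr.2.2 a]
    refine Finset.sum_congr rfl fun ω _ => ?_
    rw [Algebra.smul_def, map_mul, df.sc, PowerSeries.constantCoeff_C, hqh, ← Algebra.smul_def]
  have t1e : ∀ g a, t1 (bw F om g a) = bw (PowerSeries F) om' g (t1 a) := by
    intro g a
    rw [t1d, t1d, map_sum]
    symm
    refine Fintype.sum_equiv (MulAction.toPerm g) _ _ ?_
    intro ω
    rw [map_smul]
    show (PowerSeries.C (c ω a) : PowerSeries F) • bw (PowerSeries F) om' g (h ω) =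
      (PowerSeries.C (c (g • ω) (bw F om g a)) : PowerSeries F) • h (g • ω)
    rw [hfr.2.1, hh1]
  have t1l : ∀ w a, t1 (om w * a) = om' w * t1 a := by
    intro w a
    have h1 := t1e (w, 1) a
    have h2 : bw F om (w, 1) a = om w * a := by
      show om w * (a * om 1⁻¹) = _
      rw [inv_one, map_one, mul_one]
    have h3 : bw (PowerSeries F) om' (w, 1) (t1 a) = om' w * t1 a := by
      show om' w * (t1 a * om' 1⁻¹) = _
      rw [inv_one, map_one, mul_one]
    rw [h2, h3] at h1
    exact h1
  have t1r : ∀ w a, t1 (a * om w) = t1 a * om' w := by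
    intro w a
    have h1 := t1e (1, w⁻¹) a
    have h2 : bw F om (1, w⁻¹) a = a * om w := by
      show om 1 * (a * om w⁻¹⁻¹) = _
      rw [inv_inv, map_one, one_mul]
    have h3 : bw (PowerSeries F) om' (1, w⁻¹) (t1 a) = t1 a * om' w := by
      show om' 1 * (t1 a * om' w⁻¹⁻¹) = _
      rw [inv_inv, map_one, one_mul]
    rw [h2, h3] at h1
    exact h1
  -- the unit
  have hunit : ∀ r : PowerSeries F, IsUnit (1 + PowerSeries.X * r) := by
    intro r
    rw [PowerSeries.isUnit_iff_constantCoeff]
    simp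
  obtain ⟨z, hz⟩ := df.ker (t1 1 - 1) (by rw [map_sub, t1q, map_one, sub_self])
  have hu1 := (hUnj (PowerSeries F) A' PowerSeries.X hunit
    (LinearMap.mulLeft (PowerSeries F) (t1 1)) (fun x => ⟨z * x, by
      show t1 1 * x - x = _
      rw [← smul_mul_assoc, ← hz, sub_mul, one_mul]⟩)).2 1
  have hu2 := (hUnj (PowerSeries F) A' PowerSeries.X hunit
    (LinearMap.mulRight (PowerSeries F) (t1 1)) (fun x => ⟨x * z, by
      show x * t1 1 - x = _
      rw [← mul_smul_comm, ← hz, mul_sub, mul_one]⟩)).2 1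
  obtain ⟨v, hv⟩ := hu1
  obtain ⟨v', hv'⟩ := hu2
  have hv1 : t1 1 * v = 1 := hv
  have hv2 : v' * t1 1 = 1 := hv'
  have hvv : v' = v := by
    calc v' = v' * (t1 1 * v) := by rw [hv1, mul_one]
      _ = v := by rw [← mul_assoc, hv2, one_mul]
  rw [hvv] at hv2
  have hvw : ∀ w, v * om' w = om' w * v := by
    intro w
    have h1 : t1 1 * om' w = om' w * t1 1 := by
      rw [← t1r, ← t1l, one_mul, mul_one]
    calc v * om' w = v * (om' w * (t1 1 * v)) := by rw [hv1, mul_one]
      _ = v * (om' w * t1 1) * v := by simp only [mul_assoc]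
      _ = (v * t1 1) * om' w * v := by rw [← h1]; simp only [mul_assoc]
      _ = om' w * v := by rw [hv2, one_mul]
  have hqv : df.q v = 1 := by
    have h1 := congrArg df.q hv1
    rw [map_mul, t1q, one_mul, map_one] at h1
    exact h1
  refine ⟨{ toFun := fun a => t1 a * v
            map_zero' := by rw [map_zero, zero_mul]
            map_add' := fun x y => by rw [map_add, add_mul] }, ?_, ?_, ?_, ?_, ?_⟩
  · intro r a
    show t1 (r • a) * v = (PowerSeries.C r : PowerSeries F) • (t1 a * v)
    rw [t1s, smul_mul_assoc]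
  · intro a
    show df.q (t1 a * v) = a
    rw [map_mul, t1q, hqv, mul_one]
  · exact hv1
  · intro w a
    show t1 (om w * a) * v = om' w * (t1 a * v)
    rw [t1l, mul_assoc]
  · intro w a
    show t1 (a * om w) * v = t1 a * v * om' w
    rw [t1r, mul_assoc, mul_assoc, hvw]

/-- DFM -/
theorem dfm (hUnj : UnjStmt) : DfmStmt := by
  intro F W A A' Ω _ _ _ _ _ _ _ _ _ _ _ om om' b c hfr df
  obtain ⟨th, hs, hqt, h1, hl, hr⟩ := sect hUnj om om' b c hfr df
  let e := Module.finBasis F A
  have hreg : ∀ x : A', (PowerSeries.X : PowerSeries F) • x = 0 → x = 0 := by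
    intro x hx
    rcases smul_eq_zero.mp hx with h | h
    · exact absurd h PowerSeries.X_ne_zero
    · exact h
  have hb : Function.Bijective (thf e th) := by
    refine ⟨?_, thf_surj e th df.q hs hqt df.ker⟩
    intro f g hfg
    funext n
    have h2 : thf e th (f - g) = 0 := by
      have h3 := thf_add e th (f - g) g
      rw [sub_add_cancel, hfg] at h3
      exact (right_eq_add.mp h3)
    have h4 := thf_zero e th df.q df.sc hqt hreg n (f - g) h2
    exact sub_eq_zero.mp h4
  refine ⟨dd e th hb hs om om' df.q df.sc hqt h1 hl hr,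
    ee e th hb hs om om' df.q df.sc hqt h1 hl hr, ?_, ?_⟩
  · intro w
    show thf e th ((dd e th hb hs om om' df.q df.sc hqt h1 hl hr).sq
      ((dd e th hb hs om om' df.q df.sc hqt h1 hl hr).of (cst (om w)))) = om' w
    rw [Dm.sq_of, thf_cst e th hs]
    have h2 := hl w 1
    rw [mul_one, h1, mul_one] at h2
    exact h2
  · intro g
    show df.q (thf e th ((dd e th hb hs om om' df.q df.sc hqt h1 hl hr).sq
      ((dd e th hb hs om om' df.q df.sc hqt h1 hl hr).of g))) = g 0
    rw [Dm.sq_of, q_thf e th df.q df.sc hqt]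

end Pool.Agent.PSS.H67
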